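import Pool.Agent.Helper88.EXT.Defs

/-!
# The base ideal: the recursively enumerable predicates
-/

open Encodable

namespace EXT88

namespace BaseIdeal

/-- The existential predicates. -/
def Car : Set (ℕ → Prop) :=
  {p | ∃ q : ℕ → ℕ → Prop, PrimrecRel q ∧ ∀ n, p n ↔ ∃ m, q n m}

theorem primrecRel_comp {γ : Type} [Primcodable γ] {q : ℕ → ℕ → Prop} (hq : PrimrecRel q)
    {f g : γ → ℕ} (hf : Primrec f) (hg : Primrec g) : PrimrecPred (fun c => q (f c) (g c)) :=
  PrimrecPred.comp (p := fun x : ℕ × ℕ => q x.1 x.2) hq (f := fun c => (f c, g c)) (hf.pair hg)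

theorem car_isSig : IsSig Car where
  prim := by
    intro p hp
    refine ⟨fun n _ => p n, ?_, ?_⟩
    · exact PrimrecPred.comp (p := p) hp (f := fun x : ℕ × ℕ => x.1) Primrec.fst
    · intro n; simp
  subst := by
    rintro p f ⟨q, hq, hpq⟩ hf
    refine ⟨fun n m => q (f n) m, ?_, fun n => hpq (f n)⟩
    exact primrecRel_comp hq (hf.comp Primrec.fst) Primrec.snd
  and := by
    rintro p p' ⟨q, hq, hpq⟩ ⟨q', hq', hpq'⟩
    refine ⟨fun n m => q n m.unpair.1 ∧ q' n m.unpair.2, ?_, ?_⟩
    · exact (primrecRel_comp hq Primrec.fst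
        (Primrec.fst.comp (Primrec.unpair.comp Primrec.snd))).and
        (primrecRel_comp hq' Primrec.fst
        (Primrec.snd.comp (Primrec.unpair.comp Primrec.snd)))
    · intro n
      change (p n ∧ p' n) ↔ ∃ m : ℕ, q n m.unpair.1 ∧ q' n m.unpair.2
      rw [hpq, hpq']
      constructor
      · rintro ⟨⟨a, ha⟩, b, hb⟩
        exact ⟨Nat.pair a b, by simpa using ⟨ha, hb⟩⟩
      · rintro ⟨m, h1, h2⟩
        exact ⟨⟨_, h1⟩, _, h2⟩
  or := by
    rintro p p' ⟨q, hq, hpq⟩ ⟨q', hq', hpq'⟩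
    refine ⟨fun n m => q n m ∨ q' n m, ?_, ?_⟩
    · exact (primrecRel_comp hq Primrec.fst Primrec.snd).or
        (primrecRel_comp hq' Primrec.fst Primrec.snd)
    · intro n
      change (p n ∨ p' n) ↔ ∃ m : ℕ, q n m ∨ q' n m
      rw [hpq, hpq', exists_or]
  ex := by
    rintro p ⟨q, hq, hpq⟩
    refine ⟨fun n m => q (Nat.pair n m.unpair.1) m.unpair.2, ?_, ?_⟩
    · exact primrecRel_comp hq (Primrec₂.natPair.comp Primrec.fst
        (Primrec.fst.comp (Primrec.unpair.comp Primrec.snd)))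
        (Primrec.snd.comp (Primrec.unpair.comp Primrec.snd))
    · intro n
      constructor
      · rintro ⟨m, hm⟩
        obtain ⟨k, hk⟩ := (hpq _).1 hm
        exact ⟨Nat.pair m k, by simpa using hk⟩
      · rintro ⟨m, hm⟩
        exact ⟨m.unpair.1, (hpq _).2 ⟨_, hm⟩⟩
  ball := by
    rintro p ⟨q, hq, hpq⟩
    refine ⟨fun n M => ∀ i < n, ∃ m < M, q (Nat.pair n i) m, ?_, ?_⟩
    · have h1 : PrimrecRel (fun (m : ℕ) (x : ℕ × ℕ) => q (Nat.pair x.1 x.2) m) :=
        primrecRel_comp hq (Primrec₂.natPair.comp (Primrec.fst.comp Primrec.snd)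
          (Primrec.snd.comp Primrec.snd)) Primrec.fst
      have h2 : PrimrecRel (fun (M : ℕ) (x : ℕ × ℕ) => ∃ m < M, q (Nat.pair x.1 x.2) m) :=
        (h1.exists_mem_list.comp (Primrec.list_range.comp Primrec.fst) Primrec.snd).of_eq (by simp)
      have h3 : PrimrecRel (fun (i : ℕ) (y : ℕ × ℕ) => ∃ m < y.2, q (Nat.pair y.1 i) m) :=
        PrimrecPred.comp (p := fun z : ℕ × (ℕ × ℕ) => ∃ m < z.1, q (Nat.pair z.2.1 z.2.2) m) h2
          (f := fun w : ℕ × (ℕ × ℕ) => (w.2.2, (w.2.1, w.1)))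
          ((Primrec.snd.comp Primrec.snd).pair ((Primrec.fst.comp Primrec.snd).pair Primrec.fst))
      have h4 : PrimrecRel (fun (n : ℕ) (y : ℕ × ℕ) =>
          ∀ i < n, ∃ m < y.2, q (Nat.pair y.1 i) m) :=
        (h3.forall_mem_list.comp (Primrec.list_range.comp Primrec.fst) Primrec.snd).of_eq (by simp)
      exact PrimrecPred.comp (p := fun z : ℕ × (ℕ × ℕ) =>
          ∀ i < z.1, ∃ m < z.2.2, q (Nat.pair z.2.1 i) m) h4
          (f := fun w : ℕ × ℕ => (w.1, (w.1, w.2)))
          (Primrec.fst.pair (Primrec.fst.pair Primrec.snd))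
    · intro n
      constructor
      · intro h
        have h' : ∀ i, ∃ m, i < n → q (Nat.pair n i) m := by
          intro i
          by_cases hi : i < n
          · obtain ⟨m, hm⟩ := (hpq _).1 (h i hi)
            exact ⟨m, fun _ => hm⟩
          · exact ⟨0, fun h => absurd h hi⟩
        choose g hg using h'
        refine ⟨(Finset.range n).sup g + 1, fun i hi => ⟨g i, ?_, hg i hi⟩⟩
        have := Finset.le_sup (f := g) (Finset.mem_range.2 hi)
        omega
      · rintro ⟨M, hM⟩ i hi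
        obtain ⟨m, _, hm⟩ := hM i hi
        exact (hpq _).2 ⟨m, hm⟩

theorem car_countable : Car.Countable := by
  classical
  -- every member is given by a code
  have hsub : Car ⊆ Set.range (fun c : Nat.Partrec.Code => fun n : ℕ =>
      ∃ m, 1 ∈ c.eval (Nat.pair n m)) := by
    rintro p ⟨q, hq, hpq⟩
    obtain ⟨hd, hq'⟩ := hq
    have h1 : Primrec (fun k : ℕ => (if q k.unpair.1 k.unpair.2 then 1 else 0 : ℕ)) := by
      have h2 : Primrec (fun k : ℕ => decide (q k.unpair.1 k.unpair.2)) :=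
        hq'.comp Primrec.unpair
      refine (Primrec.cond h2 (Primrec.const 1) (Primrec.const 0)).of_eq ?_
      intro k
      by_cases hk : q k.unpair.1 k.unpair.2 <;> simp [hk]
    have h3 : Nat.Partrec (fun k : ℕ => Part.some (if q k.unpair.1 k.unpair.2 then 1 else 0 : ℕ)) :=
      Nat.Partrec.of_primrec (Primrec.nat_iff.1 h1)
    obtain ⟨c, hc⟩ := Nat.Partrec.Code.exists_code.1 h3
    refine ⟨c, ?_⟩
    funext n
    apply propext
    simp only
    rw [hpq n]
    refine exists_congr fun m => ?_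
    rw [hc]
    by_cases hk : q n m <;> simp [hk]
  exact (Set.countable_range _).mono hsub

theorem car_re {p : ℕ → Prop} (hp : p ∈ Car) : REPred p := by
  classical
  obtain ⟨q, hq', hpq⟩ := hp
  have hq : Primrec (fun x : ℕ × ℕ => decide (q x.1 x.2)) := by
    obtain ⟨_, hq⟩ := hq'
    exact hq.of_eq (fun x => by congr)
  have h1 : Partrec (fun n : ℕ => Nat.rfind (fun m => (Part.some (decide (q n m)) : Part Bool))) := by
    apply Partrec.rfind
    have := hq.to_comp.partrec
    exact this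
  have h2 := h1.dom_re
  refine h2.of_eq ?_
  intro n
  rw [hpq n, Nat.rfind_dom]
  simp

end BaseIdeal

open BaseIdeal in
theorem base : ∃ 𝓢 : Set (ℕ → Prop), 𝓢.Countable ∧ IsSig 𝓢 ∧
    ∃ T : ℕ → ℕ → Prop, PrimrecRel T ∧ (fun n : ℕ => ¬ ∃ m, T n m) ∉ 𝓢 := by
  refine ⟨Car, car_countable, car_isSig,
    fun n m => (Nat.Partrec.Code.evaln m (Denumerable.ofNat Nat.Partrec.Code n) 0).isSome = true,
    ?_, ?_⟩
  · have h1 : Primrec (fun x : ℕ × ℕ =>
        (Nat.Partrec.Code.evaln x.2 (Denumerable.ofNat Nat.Partrec.Code x.1) 0).isSome) := by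
      refine Primrec.option_isSome.comp ?_
      exact Nat.Partrec.Code.primrec_evaln.comp
        ((Primrec.snd.pair ((Primrec.ofNat Nat.Partrec.Code).comp Primrec.fst)).pair
          (Primrec.const 0))
    exact Primrec.eq.comp h1 (Primrec.const true)
  · intro h
    have h1 := car_re h
    apply ComputablePred.halting_problem_not_re 0
    have h2 : REPred (fun c : Nat.Partrec.Code => ¬ ∃ m,
        (Nat.Partrec.Code.evaln m (Denumerable.ofNat Nat.Partrec.Code (encode c)) 0).isSome
          = true) := by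
      have : Partrec (fun c : Nat.Partrec.Code => Part.assert (¬ ∃ m,
        (Nat.Partrec.Code.evaln m (Denumerable.ofNat Nat.Partrec.Code (encode c)) 0).isSome
          = true) fun _ => Part.some ()) :=
        Partrec.comp (f := fun n : ℕ => Part.assert (¬ ∃ m,
          (Nat.Partrec.Code.evaln m (Denumerable.ofNat Nat.Partrec.Code n) 0).isSome
          = true) fun _ => Part.some ()) h1 Computable.encode
      exact this
    refine h2.of_eq ?_
    intro c
    rw [Denumerable.ofNat_encode]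
    rw [not_iff_not]
    constructor
    · rintro ⟨m, hm⟩
      obtain ⟨x, hx⟩ := Option.isSome_iff_exists.1 hm
      have : x ∈ c.eval 0 := Nat.Partrec.Code.evaln_complete.2 ⟨m, hx⟩
      exact Part.dom_iff_mem.2 ⟨x, this⟩
    · intro hd
      obtain ⟨x, hx⟩ := Part.dom_iff_mem.1 hd
      obtain ⟨m, hm⟩ := Nat.Partrec.Code.evaln_complete.1 hx
      exact ⟨m, Option.isSome_iff_exists.2 ⟨x, hm⟩⟩

end EXT88
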